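import Pool.Agent.W300.FT.Stm

set_option autoImplicit false

namespace Pool.Agent.W37.FT.FD1
open MeasureTheory ProbabilityTheory Pool.Agent.W300.FT

section
variable {V : Type} (G : SimpleGraph V) (C : Set V)

/-- first bad position -/
def P (ω : V × K → Bool) (c : ℕ × ℕ) (γ : ℕ → V) (p : ℕ) : Prop :=
  Ch G ω c γ ∧ γ 1 ∈ C ∧ p ∈ Finset.Ioo 1 (c.1 + 2) ∧ γ p ∉ C ∧
    ∀ q ∈ Finset.Ioo 1 (c.1 + 2), γ q ∉ C → p ≤ q

variable {G C}

lemma mt_right {ω : V × K → Bool} {c : ℕ × ℕ} {j : ℕ} {u v v' : V} (h : mt G ω c j u v)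
    (h' : mt G ω c j u v') : v = v' :=
  h.2.2.2.1.unique ⟨h.1, h.2.2.1⟩ ⟨h'.1, h'.2.2.1⟩

lemma mt_left {ω : V × K → Bool} {c : ℕ × ℕ} {j : ℕ} {u u' v : V} (h : mt G ω c j u v)
    (h' : mt G ω c j u' v) : u = u' :=
  h.2.2.2.2.unique ⟨h.1.symm, h.2.1⟩ ⟨h'.1.symm, h'.2.1⟩

lemma ch_aux {ω : V × K → Bool} {c : ℕ × ℕ} {γ γ' : ℕ → V} (h : Ch G ω c γ) (h' : Ch G ω c γ') :
    ∀ l, l ≤ c.1 + 2 → (γ l = γ' l ↔ γ 0 = γ' 0) := by
  intro l
  induction l with
  | zero => intro _; exact Iff.rfl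
  | succ l ih =>
    intro hl
    rw [← ih (by omega)]
    have a := h l (by omega)
    have b := h' l (by omega)
    constructor
    · intro e
      rw [e] at a
      exact mt_left a b
    · intro e
      rw [e] at a
      exact mt_right a b

lemma ch_unique {ω : V × K → Bool} {c : ℕ × ℕ} {γ γ' : ℕ → V} (h : Ch G ω c γ)
    (h' : Ch G ω c γ') {j : ℕ} (hj : j ≤ c.1 + 2) (he : γ j = γ' j) :
    ∀ l, l ≤ c.1 + 2 → γ l = γ' l :=
  fun l hl => (ch_aux h h' l hl).2 ((ch_aux h h' j hj).1 he)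

lemma P_unique {ω : V × K → Bool} {c : ℕ × ℕ} {γ γ' : ℕ → V} {p p' : ℕ} (h : P G C ω c γ p)
    (h' : P G C ω c γ' p') (he : ∀ l, l ≤ c.1 + 2 → γ l = γ' l) : p = p' := by
  obtain ⟨_, _, h3, h4, h5⟩ := h
  obtain ⟨_, _, h3', h4', h5'⟩ := h'
  have e1 := he p (by have := Finset.mem_Ioo.1 h3; omega)
  have e2 := he p' (by have := Finset.mem_Ioo.1 h3'; omega)
  apply le_antisymm
  · exact h5 p' h3' (by rw [e2]; exact h4')
  · exact h5' p h3 (by rw [← e1]; exact h4)

variable (G C) in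
/-- the pairs which are exchanged -/
def R (ω : V × K → Bool) (e e' : V × K) : Prop :=
  ∃ (c : ℕ × ℕ) (i : ℕ) (γ : ℕ → V) (p : ℕ), 2 ≤ i ∧ P G C ω c γ p ∧
    ((e = (γ 1, (c, 1, i)) ∧ e' = (γ p, (c, p, i))) ∨
      (e = (γ p, (c, p, i)) ∧ e' = (γ 1, (c, 1, i))))

lemma R_symm {ω : V × K → Bool} {e e' : V × K} (h : R G C ω e e') : R G C ω e' e := by
  obtain ⟨c, i, γ, p, hi, hP, h | h⟩ := h
  · exact ⟨c, i, γ, p, hi, hP, Or.inr ⟨h.2, h.1⟩⟩
  · exact ⟨c, i, γ, p, hi, hP, Or.inl ⟨h.2, h.1⟩⟩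

lemma R_unique {ω : V × K → Bool} {e e' e'' : V × K} (h : R G C ω e e') (h' : R G C ω e e'') :
    e' = e'' := by
  obtain ⟨c, i, γ, p, hi, hP, h⟩ := h
  obtain ⟨c', i', γ', p', hi', hP', h'⟩ := h'
  have hp := Finset.mem_Ioo.1 hP.2.2.1
  have hp' := Finset.mem_Ioo.1 hP'.2.2.1
  rcases h with ⟨h1, h2⟩ | ⟨h1, h2⟩ <;> rcases h' with ⟨h1', h2'⟩ | ⟨h1', h2'⟩
  · rw [h1] at h1'
    simp only [Prod.mk.injEq] at h1'
    obtain ⟨a1, a2, -, a3⟩ := h1'
    subst a2 a3
    have hu := ch_unique hP.1 hP'.1 (by omega) a1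
    have hpp := P_unique hP hP' hu
    subst hpp
    rw [h2, h2', hu p (by omega)]
  · rw [h1] at h1'
    simp only [Prod.mk.injEq] at h1'
    omega
  · rw [h1] at h1'
    simp only [Prod.mk.injEq] at h1'
    omega
  · rw [h1] at h1'
    simp only [Prod.mk.injEq] at h1'
    obtain ⟨a1, a2, a4, a3⟩ := h1'
    subst a2 a3 a4
    have hu := ch_unique hP.1 hP'.1 (by omega) a1
    rw [h2, h2', hu 1 (by omega)]

open Classical in
/-- exchange -/
noncomputable def sw {E : Type} (R : E → E → Prop) (e : E) : E :=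
  if h : ∃ e', R e e' then h.choose else e

variable (G C) in
/-- the involution -/
noncomputable def s (ω : V × K → Bool) (e : V × K) : V × K := sw (R G C ω) e

lemma s_of_R {ω : V × K → Bool} {e e' : V × K} (h : R G C ω e e') : s G C ω e = e' := by
  have hex : ∃ e', R G C ω e e' := ⟨e', h⟩
  unfold s sw
  rw [dif_pos hex]
  exact R_unique hex.choose_spec h

lemma s_of_not {ω : V × K → Bool} {e : V × K} (h : ∀ e', ¬ R G C ω e e') : s G C ω e = e := by
  unfold s sw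
  rw [dif_neg]
  rintro ⟨e', he'⟩
  exact h e' he'

lemma s_invol (ω : V × K → Bool) (e : V × K) : s G C ω (s G C ω e) = e := by
  by_cases h : ∃ e', R G C ω e e'
  · obtain ⟨e', he'⟩ := h
    rw [s_of_R he', s_of_R (R_symm he')]
  · push Not at h
    rw [s_of_not h, s_of_not h]

lemma ch_congr {ω ω' : V × K → Bool} (hΘ : ∀ v c j, ω (v, (c, j, 0)) = ω' (v, (c, j, 0)))
    (c : ℕ × ℕ) (γ : ℕ → V) : Ch G ω c γ ↔ Ch G ω' c γ := by
  simp only [Ch, Pool.Agent.W300.FT.mt, et, hΘ]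

lemma P_congr {ω ω' : V × K → Bool} (hΘ : ∀ v c j, ω (v, (c, j, 0)) = ω' (v, (c, j, 0)))
    (c : ℕ × ℕ) (γ : ℕ → V) (p : ℕ) : P G C ω c γ p ↔ P G C ω' c γ p := by
  simp only [P, ch_congr hΘ]

lemma R_congr {ω ω' : V × K → Bool} (hΘ : ∀ v c j, ω (v, (c, j, 0)) = ω' (v, (c, j, 0))) :
    R G C ω = R G C ω' := by
  funext e e'
  simp only [R, P_congr hΘ]

lemma s_congr {ω ω' : V × K → Bool} (hΘ : ∀ v c j, ω (v, (c, j, 0)) = ω' (v, (c, j, 0))) :
    s G C ω = s G C ω' := by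
  funext e
  unfold s
  rw [R_congr hΘ]

lemma R_pos {ω : V × K → Bool} {e e' : V × K} (h : R G C ω e e') : 2 ≤ e.2.2.2 := by
  obtain ⟨c, i, γ, p, hi, hP, h | h⟩ := h
  · rw [h.1]; exact hi
  · rw [h.1]; exact hi

/-! measurability -/

lemma meas_coord (e : V × K) : Measurable (fun ω : V × K → Bool => ω e = true) := by
  rw [← measurableSet_setOf]
  have h : Measurable (fun ω : V × K → Bool => ω e) := measurable_pi_apply e
  exact h (measurableSet_singleton true)

variable [Countable V]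

lemma meas_et (c : ℕ × ℕ) (j : ℕ) (v : V) :
    Measurable (fun ω : V × K → Bool => et G ω c j v) := by
  unfold et ExistsUnique
  refine Measurable.exists fun u => ?_
  refine Measurable.and (Measurable.and measurable_const (meas_coord _)) ?_
  refine Measurable.forall fun y => ?_
  exact Measurable.imp (Measurable.and measurable_const (meas_coord _)) measurable_const

lemma meas_mt (c : ℕ × ℕ) (j : ℕ) (u v : V) :
    Measurable (fun ω : V × K → Bool => mt G ω c j u v) := by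
  unfold Pool.Agent.W300.FT.mt
  exact Measurable.and measurable_const (Measurable.and (meas_coord _)
    (Measurable.and (meas_coord _) (Measurable.and (meas_et _ _ _) (meas_et _ _ _))))

lemma meas_ch (c : ℕ × ℕ) (γ : ℕ → V) : Measurable (fun ω : V × K → Bool => Ch G ω c γ) := by
  unfold Ch
  refine Measurable.forall fun j => ?_
  exact Measurable.imp measurable_const (meas_mt _ _ _ _)

lemma meas_P (c : ℕ × ℕ) (γ : ℕ → V) (p : ℕ) :
    Measurable (fun ω : V × K → Bool => P G C ω c γ p) := by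
  unfold P
  exact Measurable.and (meas_ch c γ) measurable_const

lemma meas_ex {Ω : Type} [MeasurableSpace Ω] (n : ℕ) (Q : (ℕ → V) → Ω → Prop)
    (hQ : ∀ γ, Measurable (Q γ))
    (hdep : ∀ γ γ' : ℕ → V, (∀ l, l ≤ n → γ l = γ' l) → ∀ ω, Q γ ω → Q γ' ω) :
    Measurable (fun ω => ∃ γ, Q γ ω) := by
  have h : (fun ω => ∃ γ, Q γ ω) = fun ω => ∃ g : Fin (n + 1) → V,
      Q (fun j => g ⟨min j n, by omega⟩) ω := by
    funext ω
    apply propext
    constructor
    · rintro ⟨γ, hγ⟩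
      refine ⟨fun j => γ j, hdep γ _ ?_ ω hγ⟩
      intro l hl
      simp only [min_eq_left hl]
    · rintro ⟨g, hg⟩
      exact ⟨_, hg⟩
  rw [h]
  exact Measurable.exists fun g => hQ _

lemma P_dep {ω : V × K → Bool} {c : ℕ × ℕ} {γ γ' : ℕ → V} {p : ℕ}
    (he : ∀ l, l ≤ c.1 + 2 → γ l = γ' l) (h : P G C ω c γ p) : P G C ω c γ' p := by
  obtain ⟨h1, h2, h3, h4, h5⟩ := h
  refine ⟨?_, ?_, h3, ?_, ?_⟩
  · intro j hj
    rw [← he j (by omega), ← he (j + 1) (by omega)]
    exact h1 j hj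
  · rw [← he 1 (by omega)]; exact h2
  · rw [← he p (by have := Finset.mem_Ioo.1 h3; omega)]; exact h4
  · intro q hq hq'
    apply h5 q hq
    rw [he q (by have := Finset.mem_Ioo.1 hq; omega)]; exact hq'

lemma meas_R (e e' : V × K) : Measurable (fun ω : V × K → Bool => R G C ω e e') := by
  have h : (fun ω : V × K → Bool => R G C ω e e') = fun ω => ∃ (c : ℕ × ℕ) (i : ℕ) (p : ℕ)
      (γ : ℕ → V), 2 ≤ i ∧ P G C ω c γ p ∧
    ((e = (γ 1, (c, 1, i)) ∧ e' = (γ p, (c, p, i))) ∨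
      (e = (γ p, (c, p, i)) ∧ e' = (γ 1, (c, 1, i)))) := by
    funext ω
    apply propext
    constructor
    · rintro ⟨c, i, γ, p, h⟩
      exact ⟨c, i, p, γ, h⟩
    · rintro ⟨c, i, p, γ, h⟩
      exact ⟨c, i, γ, p, h⟩
  rw [h]
  refine Measurable.exists fun c => Measurable.exists fun i => Measurable.exists fun p => ?_
  refine meas_ex (c.1 + 2) (fun γ ω => 2 ≤ i ∧ P G C ω c γ p ∧
    ((e = (γ 1, (c, 1, i)) ∧ e' = (γ p, (c, p, i))) ∨
      (e = (γ p, (c, p, i)) ∧ e' = (γ 1, (c, 1, i))))) ?_ ?_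
  · intro γ
    exact Measurable.and measurable_const (Measurable.and (meas_P c γ p) measurable_const)
  · rintro γ γ' he ω ⟨h1, h2, h3⟩
    have e1 := he 1 (by omega)
    have e2 := he p (by have := Finset.mem_Ioo.1 h2.2.2.1; omega)
    refine ⟨h1, P_dep he h2, ?_⟩
    rw [← e1, ← e2]
    exact h3

lemma meas_s (e e' : V × K) : MeasurableSet {ω : V × K → Bool | s G C ω e = e'} := by
  have h : {ω : V × K → Bool | s G C ω e = e'} =
      {ω | R G C ω e e' ∨ (e = e' ∧ ∀ e'', ¬ R G C ω e e'')} := by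
    ext ω
    simp only [Set.mem_setOf_eq]
    by_cases hx : ∃ e'', R G C ω e e''
    · obtain ⟨x, hx⟩ := hx
      rw [s_of_R hx]
      constructor
      · rintro rfl
        exact Or.inl hx
      · rintro (h | ⟨_, h⟩)
        · exact R_unique hx h
        · exact absurd hx (h x)
    · push Not at hx
      rw [s_of_not hx]
      constructor
      · intro h
        exact Or.inr ⟨h, hx⟩
      · rintro (h | ⟨h, _⟩)
        · exact absurd h (hx e')
        · exact h
  rw [h, measurableSet_setOf]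
  refine Measurable.or (meas_R e e') (Measurable.and measurable_const ?_)
  exact Measurable.forall fun e'' => Measurable.not (meas_R e e'')

/-- the correction without the bad position -/
def Q (ω : V × K → Bool) (c : ℕ × ℕ) (i : ℕ) (γ : ℕ → V) (p : ℕ) : Prop :=
  bt (ω (γ 0, (c, 0, i))) * bt (ω (γ (c.1 + 2), (c, c.1 + 2, i))) +
    ∑ j ∈ (Finset.Ioo 1 (c.1 + 2)).erase p, bt (ω (γ j, (c, j, i))) = 1

omit [Countable V] in
lemma Q_dep {ω : V × K → Bool} {c : ℕ × ℕ} {i : ℕ} {γ γ' : ℕ → V} {p : ℕ}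
    (he : ∀ l, l ≤ c.1 + 2 → γ l = γ' l) (h : Q ω c i γ p) : Q ω c i γ' p := by
  unfold Q at h ⊢
  rw [← he 0 (by omega), ← he (c.1 + 2) le_rfl, ← h]
  congr 1
  apply Finset.sum_congr rfl
  intro j hj
  have := Finset.mem_Ioo.1 (Finset.mem_of_mem_erase hj)
  rw [he j (by omega)]

omit [Countable V] in
lemma fm_dep {ω : V × K → Bool} {c : ℕ × ℕ} {i : ℕ} {γ γ' : ℕ → V}
    (he : ∀ l, l ≤ c.1 + 2 → γ l = γ' l) : fm ω c i γ = fm ω c i γ' := by
  unfold fm
  rw [← he 0 (by omega), ← he (c.1 + 2) le_rfl]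
  congr 1
  apply Finset.sum_congr rfl
  intro j hj
  have := Finset.mem_Ioo.1 hj
  rw [he j (by omega)]

variable (G C) in
open Classical in
/-- the shear -/
noncomputable def f (ω : V × K → Bool) (e : V × K) : Bool :=
  decide (∃ (p : ℕ) (γ : ℕ → V), (e = (γ 1, (e.2.1, 1, e.2.2.2)) ∧ 2 ≤ e.2.2.2) ∧
    P G C ω e.2.1 γ p ∧ Q ω e.2.1 e.2.2.2 γ p)

lemma meas_Q (c : ℕ × ℕ) (i : ℕ) (γ : ℕ → V) (p : ℕ) :
    Measurable (fun ω : V × K → Bool => Q ω c i γ p) := by
  rw [← measurableSet_setOf]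
  letI : MeasurableSpace (ZMod 2) := ⊤
  haveI : DiscreteMeasurableSpace (ZMod 2) := ⟨fun _ => trivial⟩
  have hb : Measurable (fun b : Bool => bt b) := measurable_of_finite _
  have hc : ∀ e : V × K, Measurable (fun ω : V × K → Bool => bt (ω e)) := fun e =>
    hb.comp (measurable_pi_apply e)
  have hm : Measurable (fun ω : V × K → Bool =>
      bt (ω (γ 0, (c, 0, i))) * bt (ω (γ (c.1 + 2), (c, c.1 + 2, i))) +
        ∑ j ∈ (Finset.Ioo 1 (c.1 + 2)).erase p, bt (ω (γ j, (c, j, i)))) := by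
    refine Measurable.add (Measurable.mul (hc _) (hc _)) ?_
    exact Finset.measurable_sum _ fun j _ => hc _
  exact hm (measurableSet_singleton 1)

lemma meas_f : Measurable (f G C) := by
  refine measurable_pi_lambda _ fun e => ?_
  have h : Measurable (fun ω : V × K → Bool => ∃ (p : ℕ) (γ : ℕ → V),
      (e = (γ 1, (e.2.1, 1, e.2.2.2)) ∧ 2 ≤ e.2.2.2) ∧
      P G C ω e.2.1 γ p ∧ Q ω e.2.1 e.2.2.2 γ p) := by
    refine Measurable.exists fun p => ?_
    refine meas_ex (e.2.1.1 + 2) (fun γ ω => (e = (γ 1, (e.2.1, 1, e.2.2.2)) ∧ 2 ≤ e.2.2.2) ∧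
      P G C ω e.2.1 γ p ∧ Q ω e.2.1 e.2.2.2 γ p) ?_ ?_
    · intro γ
      exact Measurable.and measurable_const (Measurable.and (meas_P _ γ p) (meas_Q _ _ γ p))
    · rintro γ γ' he ω ⟨⟨h1, h2⟩, h3, h4⟩
      refine ⟨⟨?_, h2⟩, P_dep he h3, Q_dep he h4⟩
      rw [← he 1 (by omega)]
      exact h1
  classical
  apply measurable_to_bool
  have h2 := measurableSet_setOf.2 h
  convert h2 using 1
  ext ω
  simp [f]

omit [Countable V] in
lemma f_of_P {ω : V × K → Bool} {c : ℕ × ℕ} {i : ℕ} {γ : ℕ → V} {p : ℕ} (hi : 2 ≤ i)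
    (h : P G C ω c γ p) : f G C ω (γ 1, (c, 1, i)) = true ↔ Q ω c i γ p := by
  simp only [f, decide_eq_true_eq]
  constructor
  · rintro ⟨p', γ', ⟨h1, -⟩, h3, h4⟩
    simp only [Prod.mk.injEq, and_true] at h1 h3 h4
    have hu := ch_unique h.1 h3.1 (j := 1) (by omega) h1
    have hpp := P_unique h h3 hu
    subst hpp
    exact Q_dep (fun l hl => (hu l hl).symm) h4
  · intro hQ
    exact ⟨p, γ, ⟨rfl, hi⟩, h, hQ⟩

omit [Countable V] in
lemma f_of_not {ω : V × K → Bool} {e : V × K}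
    (h : ∀ γ p, e = (γ 1, (e.2.1, 1, e.2.2.2)) → ¬ P G C ω e.2.1 γ p) : f G C ω e = false := by
  unfold f
  rw [decide_eq_false_iff_not]
  rintro ⟨p', γ', ⟨h1, -⟩, h3, -⟩
  exact h γ' p' h1 h3

variable (G C) in
/-- the transformation -/
noncomputable def tau (ω : V × K → Bool) : V × K → Bool :=
  (fun (ω : V × K → Bool) e => xor (ω e) (f G C ω e)) ((fun (ω : V × K → Bool) e => ω (s G C ω e)) ω)

omit [Countable V] in
lemma tau_apply (ω : V × K → Bool) (e : V × K) :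
    tau G C ω e = xor (ω (s G C ω e)) (f G C (fun e => ω (s G C ω e)) e) := rfl

omit [Countable V] in
lemma swap_Θ (ω : V × K → Bool) (v : V) (c : ℕ × ℕ) (j : ℕ) :
    ω (s G C ω (v, (c, j, 0))) = ω (v, (c, j, 0)) := by
  rw [s_of_not]
  intro e' h
  have := R_pos h
  simp at this

omit [Countable V] in
lemma P_swap {ω : V × K → Bool} {c : ℕ × ℕ} {γ : ℕ → V} {p : ℕ} :
    P G C (fun e => ω (s G C ω e)) c γ p ↔ P G C ω c γ p :=
  P_congr (fun v c j => swap_Θ ω v c j) c γ p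

omit [Countable V] in
/-- the transformation does not change what is not the position `1` of a bad chain and not
outside `C` -/
lemma tau_out {ω : V × K → Bool} {v : V} {c : ℕ × ℕ} {j i : ℕ} (hj : j ≠ 1)
    (h : ∀ γ, P G C ω c γ j → γ j ≠ v) : tau G C ω (v, (c, j, i)) = ω (v, (c, j, i)) := by
  rw [tau_apply, f_of_not, Bool.xor_false, s_of_not]
  · rintro e' ⟨c', i', γ, p, hi, hP, h' | h'⟩
    · have := h'.1
      simp only [Prod.mk.injEq] at this
      exact hj this.2.2.1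
    · have := h'.1
      simp only [Prod.mk.injEq] at this
      obtain ⟨a1, a2, a3, a4⟩ := this
      subst a2 a3 a4
      exact h γ hP a1.symm
  · rintro γ p h1
    simp only [Prod.mk.injEq] at h1
    exact absurd h1.2.2.1 hj

omit [Countable V] in
lemma tau_one {ω : V × K → Bool} {v : V} {c : ℕ × ℕ} {i : ℕ}
    (h : ∀ γ p, P G C ω c γ p → γ 1 ≠ v) : tau G C ω (v, (c, 1, i)) = ω (v, (c, 1, i)) := by
  rw [tau_apply, f_of_not, Bool.xor_false, s_of_not]
  · rintro e' ⟨c', i', γ, p, hi, hP, h' | h'⟩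
    · have := h'.1
      simp only [Prod.mk.injEq] at this
      obtain ⟨a1, a2, a3, a4⟩ := this
      subst a2 a4
      exact h γ p hP a1.symm
    · have := h'.1
      simp only [Prod.mk.injEq] at this
      have hp := Finset.mem_Ioo.1 hP.2.2.1
      omega
  · rintro γ p h1
    simp only [Prod.mk.injEq] at h1
    rw [P_swap]
    intro hP
    exact h γ p hP h1.1.symm

omit [Countable V] in
lemma tau_Θ (ω : V × K → Bool) (v : V) (c : ℕ × ℕ) (j : ℕ) :
    tau G C ω (v, (c, j, 0)) = ω (v, (c, j, 0)) := by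
  rw [tau_apply, swap_Θ ω v c j]
  have : f G C (fun e => ω (s G C ω e)) (v, (c, j, 0)) = false := by
    unfold f
    rw [decide_eq_false_iff_not]
    rintro ⟨p', γ', ⟨-, h1⟩, -⟩
    simp at h1
  rw [this, Bool.xor_false]

lemma zmod_aux : ∀ (x : ZMod 2) (b : Bool), (xor b (decide (x = 1)) = true ↔ x + bt b = 1) := by
  unfold bt
  decide

omit [Countable V] in
lemma tau_bad {ω : V × K → Bool} {c : ℕ × ℕ} {i : ℕ} {γ : ℕ → V} {p : ℕ} (hi : 2 ≤ i)
    (h : P G C ω c γ p) : tau G C ω (γ 1, (c, 1, i)) = true ↔ fm ω c i γ = 1 := by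
  have hp := Finset.mem_Ioo.1 h.2.2.1
  have hR : R G C ω (γ 1, (c, 1, i)) (γ p, (c, p, i)) := ⟨c, i, γ, p, hi, h, Or.inl ⟨rfl, rfl⟩⟩
  have hfb := f_of_P (ω := fun e => ω (s G C ω e)) hi (P_swap.2 h)
  have hQ : Q (fun e => ω (s G C ω e)) c i γ p ↔ Q ω c i γ p := by
    have hs : ∀ j, j ≠ 1 → j ≠ p → j ≤ c.1 + 2 → s G C ω (γ j, (c, j, i)) = (γ j, (c, j, i)) := by
      intro j hj1 hjp hjn
      apply s_of_not
      rintro e' ⟨c', i', γ', p', hi', hP', h' | h'⟩
      · have := h'.1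
        simp only [Prod.mk.injEq] at this
        exact hj1 this.2.2.1
      · have := h'.1
        simp only [Prod.mk.injEq] at this
        obtain ⟨a1, a2, a3, a4⟩ := this
        subst a2 a3 a4
        have hu := ch_unique h.1 hP'.1 hjn a1
        exact hjp (P_unique h hP' hu).symm
    unfold Q
    simp only
    rw [hs 0 (by omega) (by omega) (by omega), hs (c.1 + 2) (by omega) (by omega) le_rfl]
    have hsum : ∑ j ∈ (Finset.Ioo 1 (c.1 + 2)).erase p, bt (ω (s G C ω (γ j, (c, j, i)))) =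
        ∑ j ∈ (Finset.Ioo 1 (c.1 + 2)).erase p, bt (ω (γ j, (c, j, i))) := by
      apply Finset.sum_congr rfl
      intro j hj
      have h1 := Finset.mem_erase.1 hj
      have h2 := Finset.mem_Ioo.1 h1.2
      rw [hs j (by omega) h1.1 (by omega)]
    rw [hsum]
  have hf : f G C (fun e => ω (s G C ω e)) (γ 1, (c, 1, i)) =
      decide (bt (ω (γ 0, (c, 0, i))) * bt (ω (γ (c.1 + 2), (c, c.1 + 2, i))) +
    ∑ j ∈ (Finset.Ioo 1 (c.1 + 2)).erase p, bt (ω (γ j, (c, j, i))) = 1) := by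
    rw [Bool.eq_iff_iff, hfb, hQ, decide_eq_true_iff]
    rfl
  rw [tau_apply, s_of_R hR, hf, zmod_aux]
  unfold fm
  rw [← Finset.sum_erase_add _ _ h.2.2.1, add_assoc]

omit [Countable V] in
lemma tau_fm {ω : V × K → Bool} {c : ℕ × ℕ} {i : ℕ} {γ : ℕ → V} (h : Ch G ω c γ)
    (hC : ∀ j ∈ Finset.Ioo 0 (c.1 + 2), γ j ∈ C) : fm (tau G C ω) c i γ = fm ω c i γ := by
  have h0 : tau G C ω (γ 0, (c, 0, i)) = ω (γ 0, (c, 0, i)) := by
    apply tau_out (by omega)
    intro γ' hP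
    have := Finset.mem_Ioo.1 hP.2.2.1
    omega
  have hn : tau G C ω (γ (c.1 + 2), (c, c.1 + 2, i)) = ω (γ (c.1 + 2), (c, c.1 + 2, i)) := by
    apply tau_out (by omega)
    intro γ' hP
    have := Finset.mem_Ioo.1 hP.2.2.1
    omega
  unfold fm
  rw [h0, hn]
  congr 1
  apply Finset.sum_congr rfl
  intro j hj
  have hj' := Finset.mem_Ioo.1 hj
  rw [tau_out (by omega)]
  intro γ' hP he
  apply hP.2.2.2.1
  rw [he]
  exact hC j (Finset.mem_Ioo.2 ⟨by omega, hj'.2⟩)

omit [Countable V] in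
lemma key (ω : V × K → Bool) (v : V) (hv : v ∈ C) (k : K) :
    PsiC G C (tau G C ω) v k = Psi G ω v k := by
  obtain ⟨c, j, i⟩ := k
  have hΘ : ∀ v c j, tau G C ω (v, (c, j, 0)) = ω (v, (c, j, 0)) := fun v c j => tau_Θ ω v c j
  unfold PsiC Psi
  simp only
  by_cases hi0 : i = 0
  · subst hi0
    simp only [if_true, hΘ]
  by_cases hi1 : i = 1
  · subst hi1
    have het : et G (tau G C ω) c j v ↔ et G ω c j v := by simp only [et, hΘ]
    simp only [if_neg hi0, if_true]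
    rw [Bool.eq_iff_iff]
    simp only [decide_eq_true_eq]
    exact het
  have hCh : ∀ γ, Ch G (tau G C ω) c γ ↔ Ch G ω c γ := fun γ => ch_congr hΘ c γ
  simp only [if_neg hi0, if_neg hi1]
  have hi : 2 ≤ i := by omega
  by_cases hj : j = 1
  · subst hj
    by_cases hA : ∃ γ : ℕ → V, γ 1 = v ∧ Ch G ω c γ ∧ ∀ j ∈ Finset.Ioo 0 (c.1 + 2), γ j ∈ C
    · have hB : ∃ γ : ℕ → V, γ 1 = v ∧ Ch G ω c γ := by
        obtain ⟨γ, h1, h2, _⟩ := hA
        exact ⟨γ, h1, h2⟩
      have hA' : ∃ γ : ℕ → V, γ 1 = v ∧ Ch G (tau G C ω) c γ ∧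
          ∀ j ∈ Finset.Ioo 0 (c.1 + 2), γ j ∈ C := by
        obtain ⟨γ, h1, h2, h3⟩ := hA
        exact ⟨γ, h1, (hCh γ).2 h2, h3⟩
      rw [if_pos ⟨rfl, hA'⟩, if_pos ⟨rfl, hB⟩]
      obtain ⟨γ, h1, h2, h3⟩ := hA
      rw [Bool.eq_iff_iff]
      simp only [decide_eq_true_eq]
      constructor
      · rintro ⟨γ', a1, a2, a3⟩
        have hu := ch_unique h2 ((hCh γ').1 a2) (j := 1) (by omega) (by rw [h1, a1])
        refine ⟨γ, h1, h2, ?_⟩
        rw [← tau_fm h2 h3, fm_dep hu]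
        exact a3
      · rintro ⟨γ', a1, a2, a3⟩
        have hu := ch_unique h2 a2 (j := 1) (by omega) (by rw [h1, a1])
        refine ⟨γ, h1, (hCh γ).2 h2, ?_⟩
        rw [tau_fm h2 h3, fm_dep hu]
        exact a3
    · have hA' : ¬ ∃ γ : ℕ → V, γ 1 = v ∧ Ch G (tau G C ω) c γ ∧
          ∀ j ∈ Finset.Ioo 0 (c.1 + 2), γ j ∈ C := by
        rintro ⟨γ, h1, h2, h3⟩
        exact hA ⟨γ, h1, (hCh γ).1 h2, h3⟩
      rw [if_neg (fun h => hA' h.2)]
      by_cases hB : ∃ γ : ℕ → V, γ 1 = v ∧ Ch G ω c γ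
      · rw [if_pos ⟨rfl, hB⟩]
        obtain ⟨γ, h1, h2⟩ := hB
        have hex : ∃ p, p ∈ Finset.Ioo 1 (c.1 + 2) ∧ γ p ∉ C := by
          by_contra hcon
          push Not at hcon
          apply hA
          refine ⟨γ, h1, h2, ?_⟩
          intro q hq
          have hq' := Finset.mem_Ioo.1 hq
          by_cases hq1 : q = 1
          · rw [hq1, h1]; exact hv
          · exact hcon q (Finset.mem_Ioo.2 ⟨by omega, hq'.2⟩)
        classical
        have hP : P G C ω c γ (Nat.find hex) := by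
          refine ⟨h2, by rw [h1]; exact hv, (Nat.find_spec hex).1, (Nat.find_spec hex).2, ?_⟩
          intro q hq hq'
          exact Nat.find_min' hex ⟨hq, hq'⟩
        have ht := tau_bad (i := i) hi hP
        rw [h1] at ht
        rw [Bool.eq_iff_iff, ht]
        simp only [decide_eq_true_eq]
        constructor
        · intro h
          exact ⟨γ, h1, h2, h⟩
        · rintro ⟨γ', a1, a2, a3⟩
          have hu := ch_unique h2 a2 (j := 1) (by omega) (by rw [h1, a1])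
          rw [fm_dep hu]
          exact a3
      · rw [if_neg (fun h => hB h.2)]
        apply tau_one
        intro γ p hP he
        exact hB ⟨γ, he, hP.1⟩
  · rw [if_neg (fun h => hj h.1), if_neg (fun h => hj h.1)]
    apply tau_out hj
    intro γ hP he
    apply hP.2.2.2.1
    rw [he]
    exact hv

theorem tau_mp (hsw : S_SWAP) (hsh : S_SHEAR) :
    MeasurePreserving (tau G C) (PC (V × K)) (PC (V × K)) := by
  have h1 := hsw (V × K) {e | e.2.2.2 = 0} (s G C) inferInstance s_invol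
    (by
      intro ω ω' h
      apply s_congr
      intro v c j
      exact h _ rfl)
    (by
      intro ω e he
      apply s_of_not
      intro e' hR
      have := R_pos hR
      have he' : e.2.2.2 = 0 := he
      omega)
    meas_s
  have h2 := hsh (V × K) {e | e.2.2.1 = 1 ∧ 2 ≤ e.2.2.2} (f G C) inferInstance
    (by
      intro ω e he
      unfold f
      rw [decide_eq_false_iff_not]
      rintro ⟨p', γ', ⟨h1, h2⟩, -⟩
      apply he
      refine ⟨?_, h2⟩
      rw [h1])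
    (by
      intro ω ω' h
      have hΘ : ∀ v c j, ω (v, (c, j, 0)) = ω' (v, (c, j, 0)) := by
        intro v c j
        apply h
        rintro ⟨_, h2⟩
        simp at h2
      have hne : ∀ v c j i, j ≠ 1 → ω (v, (c, j, i)) = ω' (v, (c, j, i)) := by
        intro v c j i hj
        apply h
        rintro ⟨h1, _⟩
        exact hj h1
      funext e
      unfold f
      congr 1
      apply propext
      refine exists_congr fun p => exists_congr fun γ => and_congr_right fun _ => ?_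
      refine and_congr (P_congr hΘ _ _ _) ?_
      unfold Q
      rw [hne _ _ 0 _ (by omega), hne _ _ (e.2.1.1 + 2) _ (by omega)]
      have hsum : ∑ j ∈ (Finset.Ioo 1 (e.2.1.1 + 2)).erase p, bt (ω (γ j, (e.2.1, j, e.2.2.2))) =
          ∑ j ∈ (Finset.Ioo 1 (e.2.1.1 + 2)).erase p, bt (ω' (γ j, (e.2.1, j, e.2.2.2))) := by
        apply Finset.sum_congr rfl
        intro j hj
        have h2 := Finset.mem_Ioo.1 (Finset.mem_of_mem_erase hj)
        rw [hne _ _ j _ (by omega)]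
      rw [hsum])
    meas_f
  exact h2.comp h1

end

theorem fd1 (hsw : S_SWAP) (hsh : S_SHEAR) (hm : S_MEAS) : S_FD1 := by
  intro V G C hV
  have hmp := tau_mp (G := G) (C := C) hsw hsh
  obtain ⟨h1, h2⟩ := hm V G C hV
  have m2 : Measurable (fun (ω : V × K → Bool) (v : C) => PsiC G C ω v) :=
    measurable_pi_lambda _ fun v => (measurable_pi_apply (v : V)).comp h2
  have hcomp : (fun (ω : V × K → Bool) (v : C) => Psi G ω v) =
      (fun (ω : V × K → Bool) (v : C) => PsiC G C ω v) ∘ tau G C := by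
    funext ω v k
    exact (key ω v v.2 k).symm
  rw [hcomp, ← Measure.map_map m2 hmp.measurable, hmp.map_eq]

end Pool.Agent.W37.FT.FD1
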